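import Pool.Agent.R50.SR.Min

set_option autoImplicit false

/-!
# Independent sets of polynomially larger size than Turán's bound, with weights
-/

namespace Pool.Agent.R50.SR

open Finset

/-- an independent set by deleting a vertex of every edge -/
theorem indep_of_few {V : Type} (G : SimpleGraph V) : ∀ (n : ℕ) (U : Finset V), U.card = n →
    ∃ I ⊆ U, G.IsIndepSet (I : Set V) ∧ (U.card : ℝ) - ee G U / 2 ≤ I.card := by
  classical
  intro n
  induction n with
  | zero =>
    intro U hU
    refine ⟨U, Finset.Subset.refl _, ?_, ?_⟩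
    · rw [Finset.card_eq_zero] at hU
      rw [hU]
      simp [SimpleGraph.IsIndepSet]
    · have := ee_nonneg (G := G) U
      linarith
  | succ n ih =>
    intro U hU
    by_cases h : G.IsIndepSet (U : Set V)
    · refine ⟨U, Finset.Subset.refl _, h, ?_⟩
      have := ee_nonneg (G := G) U
      linarith
    · have h1 : ∃ v ∈ U, ∃ w ∈ U, G.Adj v w := by
        by_contra hcon
        push Not at hcon
        apply h
        intro v hv w hw _ hadj
        exact hcon v hv w hw hadj
      obtain ⟨v, hv, w, hw, hadj⟩ := h1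
      have h2 : (1 : ℝ) ≤ dd G U v := by
        unfold dd
        calc (1 : ℝ) = if G.Adj v w then 1 else 0 := by rw [if_pos hadj]
          _ ≤ _ := Finset.single_le_sum (f := fun w => if G.Adj v w then (1 : ℝ) else 0)
            (fun _ _ => by split_ifs <;> norm_num) hw
      obtain ⟨I, hI, hind, hc⟩ := ih (U.erase v) (by rw [Finset.card_erase_of_mem hv, hU]; rfl)
      refine ⟨I, hI.trans (Finset.erase_subset _ _), hind, ?_⟩
      rw [ee_erase U v hv, Finset.card_erase_of_mem hv, Nat.cast_sub (by omega)] at hc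
      push_cast at hc
      linarith

/-- **Independent sets.** -/
theorem indep_lemma (m k : ℕ) (T : SimpleGraph (Fin (m + 1))) (hT : T.IsTree) :
    ∃ ε : ℝ, 0 < ε ∧ ε < 1 ∧ ∀ (V : Type) (G : SimpleGraph V) (W : Finset V),
      G.CliqueFree (k + 1) → IsEmpty (T ↪g G) → ∀ D : ℝ, 1 ≤ D → (∀ v ∈ W, dd G W v ≤ D) →
      ∃ I ⊆ W, G.IsIndepSet (I : Set V) ∧ 1 / (10 * D ^ (1 - ε)) * W.card ≤ I.card := by
  obtain ⟨τ, hτ, hτ1, hmain⟩ := sparse_set m k T hT
  have hp : 0 < 1 + τ := by linarith
  refine ⟨τ / (1 + τ), by positivity, by rw [div_lt_one hp]; linarith, ?_⟩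
  intro V G W hfree hemp D hD hdeg
  have he : 1 - τ / (1 + τ) = 1 / (1 + τ) := by
    field_simp
    ring
  rw [he]
  have hD0 : 0 < D := by linarith
  have hpow1 : 1 ≤ D ^ (1 / (1 + τ)) := Real.one_le_rpow hD (by positivity)
  have hpow0 : 0 < D ^ (1 / (1 + τ)) := by linarith
  rcases W.eq_empty_or_nonempty with rfl | hW
  · exact ⟨∅, Finset.Subset.refl _, by simp [SimpleGraph.IsIndepSet], by simp⟩
  have hWc : 0 < (W.card : ℝ) := by exact_mod_cast hW.card_pos
  obtain ⟨σ, hσd⟩ : ∃ σ : ℝ, σ = 1 / (5 * D ^ (1 / (1 + τ))) := ⟨_, rfl⟩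
  have hσ : 0 < σ := by rw [hσd]; positivity
  have hσ1 : σ ≤ 1 := by
    rw [hσd, div_le_one (by positivity)]
    linarith
  obtain ⟨U, hUW, hUne, hU1, hU2⟩ := hmain V G W hfree hemp hW σ hσ hσ1
  have hUc : 0 < (U.card : ℝ) := by exact_mod_cast hUne.card_pos
  have heU : ee G U ≤ U.card := by
    rcases hU2 with h | ⟨h1, h2⟩
    · rw [h]; positivity
    · have h3 : ee G W ≤ D * W.card := by
        unfold ee
        calc ∑ v ∈ W, dd G W v ≤ ∑ v ∈ W, D := Finset.sum_le_sum hdeg
          _ = D * W.card := by rw [Finset.sum_const, nsmul_eq_mul, mul_comm]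
      obtain ⟨ρ, hρ⟩ : ∃ ρ : ℝ, ρ = (U.card : ℝ) / W.card := ⟨_, rfl⟩
      have hρ0 : 0 < ρ := by rw [hρ]; positivity
      have hρ5 : ρ ≤ 5 * σ := by
        rw [hρ, div_le_iff₀ hWc]
        exact h1
      have h4 : ρ ^ (1 + τ) ≤ D⁻¹ := by
        have h5 : (5 * σ) ^ (1 + τ) = D⁻¹ := by
          have h6 : 5 * σ = (D ^ (1 / (1 + τ)))⁻¹ := by
            rw [hσd]
            field_simp
          rw [h6, Real.inv_rpow hpow0.le, ← Real.rpow_mul hD0.le, one_div, inv_mul_cancel₀ hp.ne',
            Real.rpow_one]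
        rw [← h5]
        exact Real.rpow_le_rpow hρ0.le hρ5 hp.le
      rw [← hρ] at h2
      have h7 : ρ ^ (2 + τ) = ρ * ρ ^ (1 + τ) := by
        rw [show 2 + τ = 1 + (1 + τ) by ring, Real.rpow_add hρ0, Real.rpow_one]
      rw [h7] at h2
      have h8 : ρ * W.card = U.card := by
        rw [hρ]
        field_simp
      calc ee G U ≤ ρ * ρ ^ (1 + τ) * ee G W := h2
        _ ≤ ρ * D⁻¹ * (D * W.card) := by
            apply mul_le_mul _ h3 (ee_nonneg W) (by positivity)
            exact mul_le_mul_of_nonneg_left h4 hρ0.le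
        _ = ρ * W.card := by field_simp
        _ = U.card := h8
  obtain ⟨I, hIU, hI, hIc⟩ := indep_of_few G _ U rfl
  refine ⟨I, hIU.trans hUW, hI, ?_⟩
  have h9 : 1 / (10 * D ^ (1 / (1 + τ))) = σ / 2 := by
    rw [hσd]
    field_simp
    norm_num
  rw [h9]
  linarith

open Classical in
/-- **Weights with gaps.** -/
theorem weights_gap {V : Type} (G : SimpleGraph V) (β D : ℝ) (hβ : 0 < β) (hβ1 : β ≤ 1)
    (hD : 1 ≤ D) (w : V → ℝ) : ∀ (n : ℕ) (W : Finset V), W.card = n →
    (∀ S ⊆ W, ∃ I ⊆ S, G.IsIndepSet (I : Set V) ∧ β * S.card ≤ I.card) →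
    (∀ v ∈ W, dd G W v ≤ D) → (∀ v ∈ W, 0 < w v) →
    (∀ u ∈ W, ∀ v ∈ W, w v ≤ w u → w u ≤ 2 * w v ∨ 4 * D * w v ≤ w u) →
    ∃ I ⊆ W, G.IsIndepSet (I : Set V) ∧ β / 4 * ∑ v ∈ W, w v ≤ ∑ v ∈ I, w v := by
  intro n
  induction n using Nat.strong_induction_on with
  | _ n ih =>
    intro W hWn hα hdeg hpos hgap
    rcases W.eq_empty_or_nonempty with rfl | hW
    · exact ⟨∅, Finset.Subset.refl _, by simp [SimpleGraph.IsIndepSet], by simp⟩
    obtain ⟨u0, hu0, hmax⟩ := Finset.exists_max_image W w hW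
    have hM : 0 < w u0 := hpos u0 hu0
    obtain ⟨T, hT⟩ : ∃ T : Finset V, T = W.filter (fun v => w u0 ≤ 2 * w v) := ⟨_, rfl⟩
    have hTW : T ⊆ W := by rw [hT]; exact Finset.filter_subset _ _
    have hu0T : u0 ∈ T := by
      rw [hT, Finset.mem_filter]
      exact ⟨hu0, by linarith⟩
    obtain ⟨J, hJT, hJ, hJc⟩ := hα T hTW
    obtain ⟨W', hW'⟩ : ∃ W' : Finset V, W' = (W \ T).filter (fun v => ∀ u ∈ J, ¬ G.Adj u v) :=
      ⟨_, rfl⟩
    have hW'W : W' ⊆ W := by
      rw [hW']
      exact (Finset.filter_subset _ _).trans Finset.sdiff_subset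
    have hlt : W'.card < n := by
      rw [← hWn]
      apply Finset.card_lt_card
      refine Finset.ssubset_iff_subset_ne.2 ⟨hW'W, ?_⟩
      rintro h
      rw [← h, hW', Finset.mem_filter, Finset.mem_sdiff] at hu0
      exact hu0.1.2 hu0T
    obtain ⟨I', hI'W, hI', hI'w⟩ := ih W'.card hlt W' rfl
      (fun S hS => hα S (hS.trans hW'W))
      (fun v hv => (dd_mono hW'W v).trans (hdeg v (hW'W hv)))
      (fun v hv => hpos v (hW'W hv))
      (fun u hu v hv => hgap u (hW'W hu) v (hW'W hv))
    have hdis : Disjoint J I' := by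
      rw [Finset.disjoint_left]
      intro x hx hx'
      have h1 := hI'W hx'
      rw [hW', Finset.mem_filter, Finset.mem_sdiff] at h1
      exact h1.1.2 (hJT hx)
    refine ⟨J ∪ I', Finset.union_subset (hJT.trans hTW) (hI'W.trans hW'W), ?_, ?_⟩
    · intro x hx y hy hxy hadj
      rw [Finset.coe_union, Set.mem_union] at hx hy
      rcases hx with hx | hx <;> rcases hy with hy | hy
      · exact hJ hx hy hxy hadj
      · have h1 := hI'W hy
        rw [hW', Finset.mem_filter] at h1
        exact h1.2 x hx hadj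
      · have h1 := hI'W hx
        rw [hW', Finset.mem_filter] at h1
        exact h1.2 y hy hadj.symm
      · exact hI' hx hy hxy hadj
    · rw [Finset.sum_union hdis]
      -- weight of J
      have hJw : (J.card : ℝ) * (w u0 / 2) ≤ ∑ v ∈ J, w v := by
        rw [← nsmul_eq_mul, ← Finset.sum_const]
        apply Finset.sum_le_sum
        intro v hv
        have h1 := hJT hv
        rw [hT, Finset.mem_filter] at h1
        linarith [h1.2]
      -- weight of T
      have hTw : ∑ v ∈ T, w v ≤ T.card * w u0 := by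
        rw [← nsmul_eq_mul, ← Finset.sum_const]
        exact Finset.sum_le_sum fun v hv => hmax v (hTW hv)
      -- the deleted vertices
      obtain ⟨X, hX⟩ : ∃ X : Finset V, X = (W \ T).filter (fun v => ¬ ∀ u ∈ J, ¬ G.Adj u v) :=
        ⟨_, rfl⟩
      have hXw : ∑ v ∈ X, w v ≤ J.card * (w u0 / 4) := by
        have h1 : ∀ v ∈ X, w v ≤ ∑ u ∈ J, if G.Adj u v then w u0 / (4 * D) else 0 := by
          intro v hv
          rw [hX, Finset.mem_filter, Finset.mem_sdiff] at hv
          obtain ⟨⟨hvW, hvT⟩, hv2⟩ := hv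
          push Not at hv2
          obtain ⟨u, hu, hadj⟩ := hv2
          have h2 : 4 * D * w v ≤ w u0 := by
            rcases hgap u0 hu0 v hvW (hmax v hvW) with h | h
            · exfalso
              apply hvT
              rw [hT, Finset.mem_filter]
              exact ⟨hvW, h⟩
            · exact h
          have h3 : w v ≤ w u0 / (4 * D) := by
            rw [le_div_iff₀ (by linarith)]
            linarith
          refine h3.trans ?_
          calc w u0 / (4 * D) = if G.Adj u v then w u0 / (4 * D) else 0 := by rw [if_pos hadj]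
            _ ≤ _ := Finset.single_le_sum
              (f := fun u => if G.Adj u v then w u0 / (4 * D) else 0)
              (fun _ _ => by split_ifs <;> positivity) hu
        calc ∑ v ∈ X, w v ≤ ∑ v ∈ X, ∑ u ∈ J, (if G.Adj u v then w u0 / (4 * D) else 0) :=
              Finset.sum_le_sum h1
          _ = ∑ u ∈ J, ∑ v ∈ X, (if G.Adj u v then w u0 / (4 * D) else 0) := Finset.sum_comm
          _ ≤ ∑ u ∈ J, w u0 / 4 := by
              apply Finset.sum_le_sum
              intro u hu
              have h4 : ∑ v ∈ X, (if G.Adj u v then w u0 / (4 * D) else 0) =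
                  w u0 / (4 * D) * dd G X u := by
                unfold dd
                rw [Finset.mul_sum]
                apply Finset.sum_congr rfl
                intro v _
                split_ifs <;> ring
              rw [h4]
              have hXW : X ⊆ W := by
                rw [hX]
                exact (Finset.filter_subset _ _).trans Finset.sdiff_subset
              have h5 : dd G X u ≤ D := (dd_mono hXW u).trans (hdeg u (hTW (hJT hu)))
              calc w u0 / (4 * D) * dd G X u ≤ w u0 / (4 * D) * D :=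
                    mul_le_mul_of_nonneg_left h5 (by positivity)
                _ = w u0 / 4 := by field_simp
          _ = J.card * (w u0 / 4) := by rw [Finset.sum_const, nsmul_eq_mul]
      have hsplit : ∑ v ∈ W, w v = ∑ v ∈ T, w v + (∑ v ∈ W', w v + ∑ v ∈ X, w v) := by
        rw [hW', hX, Finset.sum_filter_add_sum_filter_not, add_comm, Finset.sum_sdiff hTW]
      have hJc' : β * (T.card * w u0) ≤ J.card * w u0 := by
        have := mul_le_mul_of_nonneg_right hJc hM.le
        linarith
      have hJ0 : 0 ≤ (J.card : ℝ) * w u0 := by positivity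
      have hprod : β / 4 * ∑ v ∈ T, w v ≤ β / 4 * (T.card * w u0) :=
        mul_le_mul_of_nonneg_left hTw (by positivity)
      have hprod2 : β / 4 * ∑ v ∈ X, w v ≤ 1 / 4 * (J.card * (w u0 / 4)) := by
        calc β / 4 * ∑ v ∈ X, w v ≤ β / 4 * (J.card * (w u0 / 4)) :=
              mul_le_mul_of_nonneg_left hXw (by positivity)
          _ ≤ 1 / 4 * (J.card * (w u0 / 4)) := by
              apply mul_le_mul_of_nonneg_right _ (by positivity)
              linarith
      rw [hsplit, mul_add, mul_add]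
      linarith

open Classical in
/-- **Arbitrary weights.** -/
theorem weights_all {V : Type} (G : SimpleGraph V) (β D : ℝ) (hβ : 0 < β) (hβ1 : β ≤ 1)
    (hD : 1 ≤ D) (w : V → ℝ) (hw : ∀ v, 0 ≤ w v) (W : Finset V) (L : ℕ) (hL : 1 ≤ L)
    (hLD : 4 * D ≤ 2 ^ (L - 1))
    (hα : ∀ S ⊆ W, ∃ I ⊆ S, G.IsIndepSet (I : Set V) ∧ β * S.card ≤ I.card)
    (hdeg : ∀ v ∈ W, dd G W v ≤ D) :
    ∃ I ⊆ W, G.IsIndepSet (I : Set V) ∧ β / (4 * L) * ∑ v ∈ W, w v ≤ ∑ v ∈ I, w v := by
  have hL0 : 0 < (L : ℝ) := by exact_mod_cast hL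
  obtain ⟨cls, hcls⟩ : ∃ cls : V → ℕ, cls = fun v => (Int.log 2 (w v) % (L : ℤ)).toNat := ⟨_, rfl⟩
  have hclsL : ∀ v, cls v ∈ Finset.range L := by
    intro v
    rw [hcls, Finset.mem_range]
    have h1 : Int.log 2 (w v) % (L : ℤ) < L := Int.emod_lt_of_pos _ (by exact_mod_cast hL)
    have h2 : 0 ≤ Int.log 2 (w v) % (L : ℤ) := Int.emod_nonneg _ (by omega)
    dsimp only
    omega
  obtain ⟨P, hP⟩ : ∃ P : Finset V, P = W.filter (fun v => 0 < w v) := ⟨_, rfl⟩
  have hPW : P ⊆ W := by rw [hP]; exact Finset.filter_subset _ _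
  have hPsum : ∑ v ∈ P, w v = ∑ v ∈ W, w v := by
    apply Finset.sum_subset hPW
    intro v hv hv'
    rw [hP, Finset.mem_filter, not_and] at hv'
    exact le_antisymm (not_lt.1 (hv' hv)) (hw v)
  have hfib : ∑ r ∈ Finset.range L, ∑ v ∈ P.filter (fun v => cls v = r), w v = ∑ v ∈ P, w v :=
    Finset.sum_fiberwise_of_maps_to (fun v _ => hclsL v) w
  obtain ⟨r, hr, hrw⟩ : ∃ r ∈ Finset.range L,
      (∑ v ∈ W, w v) / L ≤ ∑ v ∈ P.filter (fun v => cls v = r), w v := by
    by_contra hcon
    push Not at hcon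
    have h1 : ∑ r ∈ Finset.range L, ∑ v ∈ P.filter (fun v => cls v = r), w v <
        ∑ r ∈ Finset.range L, (∑ v ∈ W, w v) / L :=
      Finset.sum_lt_sum_of_nonempty ⟨0, Finset.mem_range.2 (by omega)⟩ (fun r hr => hcon r hr)
    rw [hfib, hPsum, Finset.sum_const, Finset.card_range, nsmul_eq_mul,
      mul_div_cancel₀ _ hL0.ne'] at h1
    exact lt_irrefl _ h1
  obtain ⟨R, hR⟩ : ∃ R : Finset V, R = P.filter (fun v => cls v = r) := ⟨_, rfl⟩
  have hRP : R ⊆ P := by rw [hR]; exact Finset.filter_subset _ _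
  have hRpos : ∀ v ∈ R, 0 < w v := by
    intro v hv
    have h1 := hRP hv
    rw [hP, Finset.mem_filter] at h1
    exact h1.2
  obtain ⟨I, hIR, hI, hIw⟩ := weights_gap G β D hβ hβ1 hD w R.card R rfl
    (fun S hS => hα S (hS.trans (hRP.trans hPW)))
    (fun v hv => (dd_mono (hRP.trans hPW) v).trans (hdeg v (hPW (hRP hv)))) hRpos (by
      intro u hu v hv huv
      have hu0 := hRpos u hu
      have hv0 := hRpos v hv
      have e1 : cls u = r := by rw [hR, Finset.mem_filter] at hu; exact hu.2
      have e2 : cls v = r := by rw [hR, Finset.mem_filter] at hv; exact hv.2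
      have hmod : Int.log 2 (w u) % (L : ℤ) = Int.log 2 (w v) % (L : ℤ) := by
        have h2 : 0 ≤ Int.log 2 (w v) % (L : ℤ) := Int.emod_nonneg _ (by omega)
        have h3 : 0 ≤ Int.log 2 (w u) % (L : ℤ) := Int.emod_nonneg _ (by omega)
        have h4 : (Int.log 2 (w u) % (L : ℤ)).toNat = (Int.log 2 (w v) % (L : ℤ)).toNat := by
          have h5 : cls u = cls v := by rw [e1, e2]
          rw [hcls] at h5
          exact h5
        omega
      have hle : Int.log 2 (w v) ≤ Int.log 2 (w u) := Int.log_mono_right hv0 huv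
      have ha : (2 : ℝ) ^ Int.log 2 (w u) ≤ w u := by
        have := Int.zpow_log_le_self (b := 2) (by norm_num) hu0
        simpa using this
      have hb : w v < (2 : ℝ) ^ (Int.log 2 (w v) + 1) := by
        have := Int.lt_zpow_succ_log_self (b := 2) (by norm_num) (w v)
        simpa using this
      have hc : w u < (2 : ℝ) ^ (Int.log 2 (w u) + 1) := by
        have := Int.lt_zpow_succ_log_self (b := 2) (by norm_num) (w u)
        simpa using this
      have hd : (2 : ℝ) ^ Int.log 2 (w v) ≤ w v := by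
        have := Int.zpow_log_le_self (b := 2) (by norm_num) hv0
        simpa using this
      rcases hle.eq_or_lt with heq | hlt
      · left
        rw [← heq, zpow_add₀ (by norm_num : (2 : ℝ) ≠ 0), zpow_one] at hc
        linarith
      · right
        have hge : Int.log 2 (w v) + L ≤ Int.log 2 (w u) := by
          have h6 : (L : ℤ) ∣ Int.log 2 (w u) - Int.log 2 (w v) := Int.ModEq.dvd hmod.symm
          have h7 := Int.le_of_dvd (by omega) h6
          omega
        have h8 : (2 : ℝ) ^ (Int.log 2 (w v) + 1) * 2 ^ (L - 1) ≤ w u := by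
          refine le_trans ?_ ha
          rw [← zpow_natCast, ← zpow_add₀ (by norm_num : (2 : ℝ) ≠ 0)]
          apply zpow_le_zpow_right₀ (by norm_num)
          have : ((L - 1 : ℕ) : ℤ) = L - 1 := by omega
          rw [this]
          omega
        have h9 : 4 * D * w v ≤ 2 ^ (L - 1) * (2 : ℝ) ^ (Int.log 2 (w v) + 1) :=
          mul_le_mul hLD hb.le hv0.le (by positivity)
        linarith)
  refine ⟨I, hIR.trans (hRP.trans hPW), hI, ?_⟩
  rw [hR] at hIw
  have h1 : β / 4 * ((∑ v ∈ W, w v) / L) ≤ β / 4 * ∑ v ∈ P.filter (fun v => cls v = r), w v :=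
    mul_le_mul_of_nonneg_left hrw (by positivity)
  have h2 : β / (4 * L) * ∑ v ∈ W, w v = β / 4 * ((∑ v ∈ W, w v) / L) := by
    field_simp
  linarith

end Pool.Agent.R50.SR
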