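import Pool.Agent.R50.SR.Indep
import Pool.Agent.R50.SR.Minimax

set_option autoImplicit false

/-!
# Random independent sets which contain every vertex `v` with probability `c / (1 + d(v)) ^ (1 - ε)`
-/

namespace Pool.Agent.R50.SR

open Finset Pool.Agent.Y394.AT

open Classical in
theorem dd_univ {V : Type} [Fintype V] (G : SimpleGraph V) (v : V) :
    dd G univ v = ((nb G v).card : ℝ) := by
  unfold dd nb
  rw [Finset.card_filter]
  push_cast
  rfl

/-- the weighted form -/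
theorem weighted (m k : ℕ) (T : SimpleGraph (Fin (m + 1))) (hT : T.IsTree) :
    ∃ ε c : ℝ, 0 < ε ∧ ε < 1 ∧ 0 < c ∧ ∀ (V : Type) [Fintype V] (G : SimpleGraph V),
      G.CliqueFree (k + 1) → IsEmpty (T ↪g G) → ∀ w : V → ℝ, (∀ v, 0 ≤ w v) →
      ∃ I : Finset V, G.IsIndepSet (I : Set V) ∧
        c * ∑ v, w v / (1 + (nb G v).card) ^ (1 - ε) ≤ ∑ v ∈ I, w v := by
  classical
  obtain ⟨ε₀, hε₀, hε₁, hind⟩ := indep_lemma m k T hT
  obtain ⟨r, hr⟩ : ∃ r : ℝ, r = (2 : ℝ) ^ (-(ε₀ / 2)) := ⟨_, rfl⟩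
  have hr0 : 0 < r := by rw [hr]; positivity
  have hr1 : r < 1 := by
    rw [hr]
    exact Real.rpow_lt_one_of_one_lt_of_neg (by norm_num) (by linarith)
  have hsum : Summable (fun j : ℕ => ((j : ℝ) + 4) * r ^ j) := by
    have h1 : Summable (fun j : ℕ => (j : ℝ) ^ 1 * r ^ j) :=
      summable_pow_mul_geometric_of_norm_lt_one 1 (by rw [Real.norm_of_nonneg hr0.le]; exact hr1)
    have h2 : Summable (fun j : ℕ => 4 * r ^ j) :=
      (summable_geometric_of_lt_one hr0.le hr1).mul_left 4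
    refine (h1.add h2).congr (fun j => ?_)
    ring
  obtain ⟨S, hS⟩ : ∃ S : ℝ, S = ∑' j : ℕ, ((j : ℝ) + 4) * r ^ j := ⟨_, rfl⟩
  have hS0 : 0 ≤ S := by
    rw [hS]
    exact tsum_nonneg fun j => by positivity
  refine ⟨ε₀ / 2, 1 / (160 * (S + 1)), by linarith, by linarith, by positivity, ?_⟩
  intro V _ G hfree hemp w hw
  obtain ⟨Z, hZ⟩ : ∃ Z : ℝ, Z = ∑ v, w v / (1 + ((nb G v).card : ℝ)) ^ (1 - ε₀ / 2) := ⟨_, rfl⟩
  rw [← hZ]
  by_contra hcon
  push Not at hcon
  obtain ⟨c, hc⟩ : ∃ c : ℝ, c = 1 / (160 * (S + 1)) := ⟨_, rfl⟩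
  have hc0 : 0 < c := by rw [hc]; positivity
  rw [← hc] at hcon
  have hZpos : 0 < c * Z := by
    have h1 := hcon ∅ (by simp [SimpleGraph.IsIndepSet])
    simpa using h1
  have hZ0 : 0 < Z := by
    by_contra hneg
    push Not at hneg
    nlinarith
  obtain ⟨cls, hcls⟩ : ∃ cls : V → ℕ, cls = fun v => Nat.log 2 ((nb G v).card + 1) := ⟨_, rfl⟩
  have hlow : ∀ v, (2 : ℝ) ^ cls v ≤ 1 + ((nb G v).card : ℝ) := by
    intro v
    have h1 : 2 ^ cls v ≤ (nb G v).card + 1 := by
      rw [hcls]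
      exact Nat.pow_log_le_self 2 (by omega)
    have h2 : ((2 ^ cls v : ℕ) : ℝ) ≤ (((nb G v).card + 1 : ℕ) : ℝ) := by exact_mod_cast h1
    push_cast at h2
    linarith
  have hupp : ∀ v, ((nb G v).card : ℝ) ≤ (2 : ℝ) ^ (cls v + 1) := by
    intro v
    have h1 : (nb G v).card + 1 < 2 ^ (cls v + 1) := by
      rw [hcls]
      exact Nat.lt_pow_succ_log_self (by norm_num) _
    have h2 : (((nb G v).card + 1 : ℕ) : ℝ) < ((2 ^ (cls v + 1) : ℕ) : ℝ) := by exact_mod_cast h1
    push_cast at h2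
    linarith
  -- the weight of a class
  have hclass : ∀ j : ℕ, ∑ v ∈ univ.filter (fun v => cls v = j), w v ≤
      40 * ((j : ℝ) + 4) * ((2 : ℝ) ^ (j + 1)) ^ (1 - ε₀) * (c * Z) := by
    intro j
    obtain ⟨W, hW⟩ : ∃ W : Finset V, W = univ.filter (fun v => cls v = j) := ⟨_, rfl⟩
    rw [← hW]
    have hD : (1 : ℝ) ≤ (2 : ℝ) ^ (j + 1) := one_le_pow₀ (by norm_num)
    have hDp : 1 ≤ ((2 : ℝ) ^ (j + 1)) ^ (1 - ε₀) := Real.one_le_rpow hD (by linarith)
    have hdeg : ∀ S ⊆ W, ∀ v ∈ S, dd G S v ≤ (2 : ℝ) ^ (j + 1) := by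
      intro S hS v hv
      refine (dd_mono (Finset.subset_univ S) v).trans ?_
      rw [dd_univ]
      have h1 : cls v = j := by
        have := hS hv
        rw [hW, Finset.mem_filter] at this
        exact this.2
      rw [← h1]
      exact hupp v
    obtain ⟨I, hIW, hI, hIw⟩ := weights_all G (1 / (10 * ((2 : ℝ) ^ (j + 1)) ^ (1 - ε₀)))
      ((2 : ℝ) ^ (j + 1)) (by positivity)
      (by rw [div_le_one (by positivity)]; linarith) hD w hw W (j + 4) (by omega)
      (by
        have : j + 4 - 1 = j + 1 + 2 := by omega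
        rw [this, pow_add (2 : ℝ) (j + 1) 2]
        norm_num
        linarith)
      (fun S hS => hind V G S hfree hemp _ hD (hdeg S hS)) (hdeg W (Finset.Subset.refl _))
    have h1 := hcon I hI
    have h2 := lt_of_le_of_lt hIw h1
    have h3 : 1 / (10 * ((2 : ℝ) ^ (j + 1)) ^ (1 - ε₀)) / (4 * ((j + 4 : ℕ) : ℝ)) * ∑ v ∈ W, w v =
        (∑ v ∈ W, w v) / (40 * ((j : ℝ) + 4) * ((2 : ℝ) ^ (j + 1)) ^ (1 - ε₀)) := by
      push_cast
      field_simp
      ring
    rw [h3, div_lt_iff₀ (by positivity)] at h2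
    linarith
  have hclass2 : ∀ j : ℕ, ∑ v ∈ univ.filter (fun v => cls v = j),
      w v / (1 + ((nb G v).card : ℝ)) ^ (1 - ε₀ / 2) ≤ (((j : ℝ) + 4) * r ^ j) * (80 * (c * Z)) := by
    intro j
    have h2j : (0 : ℝ) < 2 ^ j := by positivity
    calc ∑ v ∈ univ.filter (fun v => cls v = j), w v / (1 + ((nb G v).card : ℝ)) ^ (1 - ε₀ / 2)
        ≤ ∑ v ∈ univ.filter (fun v => cls v = j), w v / ((2 : ℝ) ^ j) ^ (1 - ε₀ / 2) := by
          apply Finset.sum_le_sum
          intro v hv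
          rw [Finset.mem_filter] at hv
          apply div_le_div_of_nonneg_left (hw v) (by positivity)
          apply Real.rpow_le_rpow (by positivity) _ (by linarith)
          rw [← hv.2]
          exact hlow v
      _ = (∑ v ∈ univ.filter (fun v => cls v = j), w v) / ((2 : ℝ) ^ j) ^ (1 - ε₀ / 2) := by
          rw [Finset.sum_div]
      _ ≤ (40 * ((j : ℝ) + 4) * ((2 : ℝ) ^ (j + 1)) ^ (1 - ε₀) * (c * Z)) /
          ((2 : ℝ) ^ j) ^ (1 - ε₀ / 2) :=
          div_le_div_of_nonneg_right (hclass j) (by positivity)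
      _ ≤ _ := by
          rw [div_le_iff₀ (by positivity)]
          have h4 : ((2 : ℝ) ^ (j + 1)) ^ (1 - ε₀) ≤ 2 * ((2 : ℝ) ^ j) ^ (1 - ε₀) := by
            rw [pow_succ, Real.mul_rpow h2j.le (by norm_num), mul_comm]
            apply mul_le_mul_of_nonneg_right _ (by positivity)
            calc (2 : ℝ) ^ (1 - ε₀) ≤ (2 : ℝ) ^ (1 : ℝ) :=
                  Real.rpow_le_rpow_of_exponent_le (by norm_num) (by linarith)
              _ = 2 := Real.rpow_one 2
          have h5 : r ^ j * ((2 : ℝ) ^ j) ^ (1 - ε₀ / 2) = ((2 : ℝ) ^ j) ^ (1 - ε₀) := by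
            have h6 : r ^ j = ((2 : ℝ) ^ j) ^ (-(ε₀ / 2)) := by
              rw [hr, ← Real.rpow_natCast, ← Real.rpow_mul (by norm_num), ← Real.rpow_natCast 2 j,
                ← Real.rpow_mul (by norm_num), mul_comm]
            rw [h6, ← Real.rpow_add h2j]
            congr 1
            ring
          have h7 : 0 ≤ 40 * ((j : ℝ) + 4) * (c * Z) := by positivity
          calc 40 * ((j : ℝ) + 4) * ((2 : ℝ) ^ (j + 1)) ^ (1 - ε₀) * (c * Z) =
                40 * ((j : ℝ) + 4) * (c * Z) * ((2 : ℝ) ^ (j + 1)) ^ (1 - ε₀) := by ring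
            _ ≤ 40 * ((j : ℝ) + 4) * (c * Z) * (2 * ((2 : ℝ) ^ j) ^ (1 - ε₀)) :=
                mul_le_mul_of_nonneg_left h4 h7
            _ = _ := by rw [← h5]; ring
  have hfib : ∑ j ∈ univ.image cls, ∑ v ∈ univ.filter (fun v => cls v = j),
      w v / (1 + ((nb G v).card : ℝ)) ^ (1 - ε₀ / 2) = Z := by
    rw [hZ]
    exact Finset.sum_fiberwise_of_maps_to (fun v _ => Finset.mem_image_of_mem _ (Finset.mem_univ v)) _
  have hfin : Z ≤ S * (80 * (c * Z)) := by
    rw [← hfib]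
    calc ∑ j ∈ univ.image cls, ∑ v ∈ univ.filter (fun v => cls v = j),
          w v / (1 + ((nb G v).card : ℝ)) ^ (1 - ε₀ / 2)
        ≤ ∑ j ∈ univ.image cls, (((j : ℝ) + 4) * r ^ j) * (80 * (c * Z)) :=
          Finset.sum_le_sum fun j _ => hclass2 j
      _ = (∑ j ∈ univ.image cls, ((j : ℝ) + 4) * r ^ j) * (80 * (c * Z)) := by
          rw [Finset.sum_mul]
      _ ≤ S * (80 * (c * Z)) := by
          apply mul_le_mul_of_nonneg_right _ (by positivity)
          rw [hS]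
          exact hsum.sum_le_tsum _ (fun j _ => by positivity)
      _ = _ := by rw [hfib]
  have h8 : c * (160 * (S + 1)) = 1 := by
    rw [hc]
    field_simp
  nlinarith

/-- **Random independent sets.** -/
theorem random_indep (m k : ℕ) (T : SimpleGraph (Fin (m + 1))) (hT : T.IsTree) :
    ∃ ε c : ℝ, 0 < ε ∧ ε < 1 ∧ 0 < c ∧ ∀ (V : Type) [Fintype V] [DecidableEq V]
      (G : SimpleGraph V), G.CliqueFree (k + 1) → IsEmpty (T ↪g G) →
      ∃ p : Finset V → ℝ, (∀ I, 0 ≤ p I) ∧ ∑ I, p I = 1 ∧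
        (∀ I, p I ≠ 0 → G.IsIndepSet (I : Set V)) ∧
        ∀ v, c / (1 + (nb G v).card) ^ (1 - ε) ≤ ∑ I ∈ univ.filter (fun I => v ∈ I), p I := by
  classical
  obtain ⟨ε, c, hε, hε1, hc, hmain⟩ := weighted m k T hT
  refine ⟨ε, c / 2, hε, hε1, by positivity, ?_⟩
  intro V _ _ G hfree hemp
  rcases isEmpty_or_nonempty V with hV | hV
  · refine ⟨fun _ => 1, fun I => by norm_num, ?_, ?_, ?_⟩
    · rw [Finset.sum_const, nsmul_eq_mul, mul_one, Finset.card_univ, Fintype.card_finset,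
        Fintype.card_eq_zero]
      norm_num
    · intro I _ x
      exact (hV.false x).elim
    · intro v
      exact (hV.false v).elim
  obtain ⟨K, hK⟩ : ∃ K : Set (Finset V → ℝ), K = {p | (∀ I : Finset V, 0 ≤ p I) ∧
      ∑ I : Finset V, p I = 1 ∧ ∀ I : Finset V, ¬ G.IsIndepSet (I : Set V) → p I = 0} := ⟨_, rfl⟩
  obtain ⟨f, hf⟩ : ∃ f : V → (Finset V → ℝ) → ℝ, f = fun v p =>
      (1 + ((nb G v).card : ℝ)) ^ (1 - ε) * ∑ I ∈ univ.filter (fun I => v ∈ I), p I := ⟨_, rfl⟩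
  obtain ⟨p, hpK, hp⟩ := minimax K (by
    rw [hK]
    rintro p ⟨hp1, hp2, hp3⟩ q ⟨hq1, hq2, hq3⟩ a b ha hb hab
    refine ⟨fun I => ?_, ?_, fun I hI => ?_⟩
    · simp only [Pi.add_apply, Pi.smul_apply, smul_eq_mul]
      have := hp1 I
      have := hq1 I
      positivity
    · simp only [Pi.add_apply, Pi.smul_apply, smul_eq_mul]
      rw [Finset.sum_add_distrib, ← Finset.mul_sum, ← Finset.mul_sum, hp2, hq2, mul_one, mul_one,
        hab]
    · simp only [Pi.add_apply, Pi.smul_apply, smul_eq_mul]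
      rw [hp3 I hI, hq3 I hI, mul_zero, mul_zero, add_zero]) f (by
    intro v
    refine ⟨by
      rw [hK]
      rintro p ⟨hp1, hp2, hp3⟩ q ⟨hq1, hq2, hq3⟩ a b ha hb hab
      refine ⟨fun I => ?_, ?_, fun I hI => ?_⟩
      · simp only [Pi.add_apply, Pi.smul_apply, smul_eq_mul]
        have := hp1 I
        have := hq1 I
        positivity
      · simp only [Pi.add_apply, Pi.smul_apply, smul_eq_mul]
        rw [Finset.sum_add_distrib, ← Finset.mul_sum, ← Finset.mul_sum, hp2, hq2, mul_one,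
          mul_one, hab]
      · simp only [Pi.add_apply, Pi.smul_apply, smul_eq_mul]
        rw [hp3 I hI, hq3 I hI, mul_zero, mul_zero, add_zero], ?_⟩
    intro p _ q _ a b _ _ _
    rw [hf]
    simp only [Pi.add_apply, Pi.smul_apply, smul_eq_mul]
    rw [Finset.sum_add_distrib, ← Finset.mul_sum, ← Finset.mul_sum]
    apply le_of_eq
    ring) c (by
    intro l hl hl1
    obtain ⟨I, hI, hIw⟩ := hmain V G hfree hemp
      (fun v => l v * (1 + ((nb G v).card : ℝ)) ^ (1 - ε)) (fun v => by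
        have := hl v
        positivity)
    refine ⟨fun J => if J = I then 1 else 0, ?_, ?_⟩
    · rw [hK]
      refine ⟨fun J => by dsimp only; split_ifs <;> norm_num, ?_, fun J hJ => ?_⟩
      · rw [Finset.sum_ite_eq' Finset.univ I]
        simp
      · dsimp only
        rw [if_neg]
        rintro rfl
        exact hJ hI
    · have h1 : ∑ v, l v * (1 + ((nb G v).card : ℝ)) ^ (1 - ε) /
          (1 + ((nb G v).card : ℝ)) ^ (1 - ε) = 1 := by
        rw [← hl1]
        apply Finset.sum_congr rfl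
        intro v _
        have : 0 < (1 + ((nb G v).card : ℝ)) ^ (1 - ε) := by positivity
        field_simp
      rw [h1, mul_one] at hIw
      refine hIw.trans (le_of_eq ?_)
      have h2 : ∀ v, l v * f v (fun J => if J = I then 1 else 0) =
          if v ∈ I then l v * (1 + ((nb G v).card : ℝ)) ^ (1 - ε) else 0 := by
        intro v
        rw [hf]
        dsimp only
        rw [Finset.sum_ite_eq' (univ.filter (fun J => v ∈ J)) I]
        by_cases hv : v ∈ I
        · simp [hv]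
        · simp [hv]
      rw [Finset.sum_congr rfl (fun v _ => h2 v), ← Finset.sum_filter]
      congr 1
      ext v
      simp) (c / 2) (by linarith)
  rw [hK] at hpK
  obtain ⟨h1, h2, h3⟩ := hpK
  refine ⟨p, h1, h2, fun I hI => ?_, fun v => ?_⟩
  · by_contra h
    exact hI (h3 I h)
  · have h4 := hp v
    rw [hf] at h4
    have h5 : 0 < (1 + ((nb G v).card : ℝ)) ^ (1 - ε) := by positivity
    rw [div_le_iff₀ h5]
    dsimp only at h4
    linarith

end Pool.Agent.R50.SR
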