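import Pool.Agent.R50.MC.Main

set_option autoImplicit false

/-!
# Sets of small relative density, by minimising `e(U) / |U| ^ (2 + τ)`
-/

namespace Pool.Agent.R50.SR

open Finset Pool.Agent.Y394.AT Pool.Agent.R50.MC

open Classical in
/-- the number of neighbours of `v` in `U` -/
noncomputable def dd {V : Type} (G : SimpleGraph V) (U : Finset V) (v : V) : ℝ :=
  ∑ w ∈ U, if G.Adj v w then 1 else 0

/-- twice the number of edges inside `U` -/
noncomputable def ee {V : Type} (G : SimpleGraph V) (U : Finset V) : ℝ := ∑ v ∈ U, dd G U v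

section basic

variable {V : Type} {G : SimpleGraph V}

theorem dd_nonneg (U : Finset V) (v : V) : 0 ≤ dd G U v :=
  Finset.sum_nonneg fun _ _ => by split_ifs <;> norm_num

theorem ee_nonneg (U : Finset V) : 0 ≤ ee G U := Finset.sum_nonneg fun _ _ => dd_nonneg U _

theorem dd_le_card (U : Finset V) (v : V) : dd G U v ≤ U.card := by
  classical
  unfold dd
  calc ∑ w ∈ U, (if G.Adj v w then (1 : ℝ) else 0) ≤ ∑ w ∈ U, 1 :=
        Finset.sum_le_sum fun _ _ => by split_ifs <;> norm_num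
    _ = U.card := by simp

theorem dd_mono {U W : Finset V} (h : U ⊆ W) (v : V) : dd G U v ≤ dd G W v :=
  Finset.sum_le_sum_of_subset_of_nonneg h fun _ _ _ => by split_ifs <;> norm_num

theorem ee_erase [DecidableEq V] (U : Finset V) (v : V) (hv : v ∈ U) :
    ee G (U.erase v) = ee G U - 2 * dd G U v := by
  classical
  have h1 : ∀ x, dd G (U.erase v) x = dd G U x - if G.Adj x v then 1 else 0 := by
    intro x
    unfold dd
    rw [← Finset.add_sum_erase U _ hv]
    ring
  unfold ee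
  rw [Finset.sum_congr rfl (fun x _ => h1 x), Finset.sum_sub_distrib,
    ← Finset.add_sum_erase U (fun x => dd G U x) hv]
  have h2 : ∑ x ∈ U.erase v, (if G.Adj x v then (1 : ℝ) else 0) = dd G U v := by
    unfold dd
    rw [← Finset.add_sum_erase U _ hv, if_neg (G.irrefl), zero_add]
    apply Finset.sum_congr rfl
    intro x _
    by_cases h : G.Adj x v
    · rw [if_pos h, if_pos h.symm]
    · rw [if_neg h, if_neg (fun h' => h h'.symm)]
  rw [h2]
  ring

end basic

open Classical in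
/-- the cut lemma on a set in which the degrees are at most `3/2` times the average degree -/
theorem split_lemma (m k : ℕ) (T : SimpleGraph (Fin (m + 1))) (hT : T.IsTree) :
    ∃ c : ℝ, 0 < c ∧ c ≤ 1 ∧ ∀ (V : Type) (G : SimpleGraph V) (U : Finset V),
      G.CliqueFree (k + 1) → IsEmpty (T ↪g G) → 0 < ee G U →
      (∀ v ∈ U, dd G U v ≤ 3 / 2 * (ee G U / U.card)) →
      ∃ S ⊆ U, ee G S + ee G (U \ S) ≤ (1 / 2 - 3 / 4 * c) * ee G U := by
  obtain ⟨c, hc, hmain⟩ := main_form m k T hT 2 (by norm_num)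
  refine ⟨min c 1, lt_min hc one_pos, min_le_right _ _, ?_⟩
  intro V G U hfree hemp hE hdeg
  have hne : U.Nonempty := by
    rw [Finset.nonempty_iff_ne_empty]
    rintro rfl
    simp [ee] at hE
  have hcard : 0 < (U.card : ℝ) := by exact_mod_cast hne.card_pos
  let H : SimpleGraph U := G.comap (Subtype.val : U → V)
  have hHadj : ∀ a b : U, H.Adj a b ↔ G.Adj a.1 b.1 := fun a b => Iff.rfl
  have hnb : ∀ a : U, ((nb H a).card : ℝ) = dd G U a.1 := by
    intro a
    unfold dd nb
    rw [Finset.card_filter]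
    push_cast
    rw [← Finset.sum_coe_sort U (fun w => if G.Adj a.1 w then (1 : ℝ) else 0)]
    apply Finset.sum_congr rfl
    intro w _
    by_cases h : G.Adj a.1 w.1
    · rw [if_pos h, if_pos ((hHadj a w).2 h)]
    · rw [if_neg h, if_neg (fun h' => h ((hHadj a w).1 h'))]
  have hsum : ∑ a : U, ((nb H a).card : ℝ) = ee G U := by
    rw [Finset.sum_congr rfl (fun a _ => hnb a)]
    unfold ee
    rw [← Finset.sum_coe_sort U (fun w => dd G U w)]
  obtain ⟨d, hd⟩ : ∃ d : ℝ, d = 3 / 2 * (ee G U / U.card) := ⟨_, rfl⟩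
  have hd0 : 0 < d := by rw [hd]; positivity
  have hdU : d * (U.card : ℝ) = 3 / 2 * ee G U := by
    rw [hd]
    field_simp
  obtain ⟨s, hs1, hs2⟩ := hmain U H d ⟨⟨hne.choose, hne.choose_spec⟩⟩ hd0
    (fun v => by rw [hnb, hd]; exact hdeg v.1 v.2)
    (by rw [hsum, Fintype.card_coe, hdU]; linarith)
    (by
      intro t ht
      apply hfree (t.map ⟨Subtype.val, Subtype.val_injective⟩)
      rw [SimpleGraph.isNClique_iff] at ht ⊢
      refine ⟨?_, by rw [Finset.card_map]; exact ht.2⟩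
      rw [SimpleGraph.isClique_iff]
      intro x hx y hy hxy
      rw [Finset.coe_map] at hx hy
      obtain ⟨a, ha, rfl⟩ := hx
      obtain ⟨b, hb, rfl⟩ := hy
      exact ht.1 ha hb (fun h => hxy (by rw [h])))
    ⟨fun e => hemp.false (e.trans ⟨⟨Subtype.val, Subtype.val_injective⟩, Iff.rfl⟩)⟩
  rw [Fintype.card_coe, mul_assoc, hdU] at hs2
  obtain ⟨s', hs'⟩ : ∃ s' : V → ℝ, s' = fun v => if h : v ∈ U then s ⟨v, h⟩ else 0 := ⟨_, rfl⟩
  have hs'U : ∀ a : U, s' a.1 = s a := by
    intro a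
    rw [hs']
    simp
  have hq : q H s = ∑ v ∈ U, ∑ w ∈ U, if G.Adj v w then s' v * s' w else 0 := by
    unfold q bb
    rw [← Finset.sum_coe_sort U (fun v => ∑ w ∈ U, if G.Adj v w then s' v * s' w else 0)]
    apply Finset.sum_congr rfl
    intro a _
    rw [← Finset.sum_coe_sort U (fun w => if G.Adj a.1 w then s' a.1 * s' w else 0)]
    apply Finset.sum_congr rfl
    intro b _
    rw [hs'U, hs'U, hHadj]
  have hval : ∀ v ∈ U, s' v = 1 ∨ s' v = -1 := by
    intro v hv
    rw [hs'U ⟨v, hv⟩]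
    exact hs1 _
  refine ⟨U.filter (fun v => s' v = 1), Finset.filter_subset _ _, ?_⟩
  have key : ∀ (A : Finset V), A ⊆ U → ee G A =
      ∑ v ∈ U, ∑ w ∈ U, if G.Adj v w then (if v ∈ A then 1 else 0) * (if w ∈ A then (1 : ℝ) else 0)
        else 0 := by
    intro A hA
    unfold ee dd
    rw [← Finset.sum_subset hA]
    · apply Finset.sum_congr rfl
      intro v hv
      rw [← Finset.sum_subset hA]
      · apply Finset.sum_congr rfl
        intro w hw
        simp [hv, hw]
      · intro w _ hw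
        simp [hw]
    · intro v _ hv
      apply Finset.sum_eq_zero
      intro w _
      simp [hv]
  have h5 : ee G (U.filter (fun v => s' v = 1)) + ee G (U \ U.filter (fun v => s' v = 1)) =
      (ee G U + q H s) / 2 := by
    rw [key _ (Finset.filter_subset _ _), key _ Finset.sdiff_subset, key U (Finset.Subset.refl _),
      hq, ← Finset.sum_add_distrib, ← Finset.sum_add_distrib, Finset.sum_div]
    apply Finset.sum_congr rfl
    intro v hv
    rw [← Finset.sum_add_distrib, ← Finset.sum_add_distrib, Finset.sum_div]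
    apply Finset.sum_congr rfl
    intro w hw
    by_cases hadj : G.Adj v w
    · simp only [if_pos hadj, Finset.mem_filter, Finset.mem_sdiff, hv, hw, true_and, if_true]
      rcases hval v hv with h1 | h1 <;> rcases hval w hw with h2 | h2 <;> rw [h1, h2] <;> norm_num
    · simp [hadj]
  rw [h5]
  have h6 : min c 1 ≤ c := min_le_left _ _
  nlinarith

/-- **Sets of small relative density.** -/
theorem sparse_set (m k : ℕ) (T : SimpleGraph (Fin (m + 1))) (hT : T.IsTree) :
    ∃ τ : ℝ, 0 < τ ∧ τ ≤ 1 ∧ ∀ (V : Type) (G : SimpleGraph V) (W : Finset V),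
      G.CliqueFree (k + 1) → IsEmpty (T ↪g G) → W.Nonempty → ∀ σ : ℝ, 0 < σ → σ ≤ 1 →
      ∃ U ⊆ W, U.Nonempty ∧ σ * W.card ≤ U.card ∧ (ee G U = 0 ∨
        ((U.card : ℝ) ≤ 5 * σ * W.card ∧
          ee G U ≤ ((U.card : ℝ) / W.card) ^ (2 + τ) * ee G W)) := by
  classical
  obtain ⟨c, hc, hc1, hsplit⟩ := split_lemma m k T hT
  refine ⟨c, hc, hc1, ?_⟩
  intro V G W hfree hemp hW σ hσ hσ1
  have hWc : 0 < (W.card : ℝ) := by exact_mod_cast hW.card_pos
  have hp : 0 < 2 + c := by linarith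
  -- the minimiser
  obtain ⟨U, hU, hmin⟩ := Finset.exists_min_image
    (W.powerset.filter (fun U => U.Nonempty ∧ σ * W.card ≤ U.card))
    (fun U => ee G U / (U.card : ℝ) ^ (2 + c))
    ⟨W, by
      rw [Finset.mem_filter, Finset.mem_powerset]
      exact ⟨Finset.Subset.refl _, hW, by nlinarith⟩⟩
  rw [Finset.mem_filter, Finset.mem_powerset] at hU
  obtain ⟨hUW, hUne, hUσ⟩ := hU
  have hUc : 0 < (U.card : ℝ) := by exact_mod_cast hUne.card_pos
  have hm : ∀ S : Finset V, S ⊆ U → S.Nonempty → σ * W.card ≤ S.card →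
      ee G U * ((S.card : ℝ) / U.card) ^ (2 + c) ≤ ee G S := by
    intro S hS hSne hSσ
    have h1 := hmin S (by
      rw [Finset.mem_filter, Finset.mem_powerset]
      exact ⟨hS.trans hUW, hSne, hSσ⟩)
    have hSc : 0 < (S.card : ℝ) := by exact_mod_cast hSne.card_pos
    have h2 : 0 < (S.card : ℝ) ^ (2 + c) := Real.rpow_pos_of_pos hSc _
    have h3 : 0 < (U.card : ℝ) ^ (2 + c) := Real.rpow_pos_of_pos hUc _
    rw [div_le_div_iff₀ h3 h2] at h1
    rw [Real.div_rpow hSc.le hUc.le, mul_div_assoc', div_le_iff₀ h3]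
    exact h1
  refine ⟨U, hUW, hUne, hUσ, ?_⟩
  by_contra hcon
  push Not at hcon
  obtain ⟨hE0, hcon2⟩ := hcon
  have hE : 0 < ee G U := lt_of_le_of_ne (ee_nonneg U) (Ne.symm hE0)
  have hbig : 5 * σ * W.card < U.card := by
    by_contra hlt
    push Not at hlt
    have h1 := hcon2 hlt
    have h2 := hmin W (by
      rw [Finset.mem_filter, Finset.mem_powerset]
      exact ⟨Finset.Subset.refl _, hW, by nlinarith⟩)
    have h3 : 0 < (U.card : ℝ) ^ (2 + c) := Real.rpow_pos_of_pos hUc _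
    have h4 : 0 < (W.card : ℝ) ^ (2 + c) := Real.rpow_pos_of_pos hWc _
    rw [div_le_div_iff₀ h3 h4] at h2
    rw [Real.div_rpow hUc.le hWc.le, div_mul_eq_mul_div, div_lt_iff₀ h4] at h1
    linarith
  -- at least two elements
  have h2 : 2 ≤ U.card := by
    by_contra hlt
    have h1 : U.card = 1 := by
      have := hUne.card_pos
      omega
    obtain ⟨x, hx⟩ := Finset.card_eq_one.1 h1
    rw [hx] at hE
    unfold ee dd at hE
    rw [Finset.sum_singleton, Finset.sum_singleton, if_neg (G.irrefl)] at hE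
    exact lt_irrefl _ hE
  have h2r : (2 : ℝ) ≤ U.card := by exact_mod_cast h2
  -- the degrees
  have hdeg : ∀ v ∈ U, dd G U v ≤ 3 / 2 * (ee G U / U.card) := by
    intro v hv
    have h3 : (U.erase v).card = U.card - 1 := Finset.card_erase_of_mem hv
    have h4 : ((U.erase v).card : ℝ) = U.card - 1 := by
      rw [h3]
      push_cast [Nat.cast_sub (by omega : 1 ≤ U.card)]
      ring
    have h5 := hm (U.erase v) (Finset.erase_subset _ _)
      (Finset.card_pos.1 (by rw [h3]; omega)) (by rw [h4]; nlinarith [mul_pos hσ hWc])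
    rw [ee_erase U v hv, h4] at h5
    have h6 : 1 + (2 + c) * (-1 / (U.card : ℝ)) ≤ (1 + -1 / (U.card : ℝ)) ^ (2 + c) := by
      apply one_add_mul_self_le_rpow_one_add
      · rw [neg_div, neg_le_neg_iff, div_le_one hUc]
        linarith
      · linarith
    have h7 : (U.card - 1) / (U.card : ℝ) = 1 + -1 / (U.card : ℝ) := by
      field_simp
      ring
    rw [h7] at h5
    have h8 : ee G U * (1 + (2 + c) * (-1 / (U.card : ℝ))) ≤
        ee G U * (1 + -1 / (U.card : ℝ)) ^ (2 + c) := mul_le_mul_of_nonneg_left h6 hE.le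
    have h9 : ee G U * (1 + (2 + c) * (-1 / (U.card : ℝ))) =
        ee G U - (2 + c) * (ee G U / U.card) := by
      field_simp
      ring
    have h10 : 0 < ee G U / U.card := by positivity
    nlinarith
  obtain ⟨S, hSU, hcut⟩ := hsplit V G U hfree hemp hE hdeg
  -- both parts are large
  have hpart : ∀ A : Finset V, A ⊆ U → ee G A ≤ (1 / 2 - 3 / 4 * c) * ee G U →
      (U.card : ℝ) / 5 ≤ ((U \ A).card : ℝ) := by
    intro A hA hAe
    by_contra hlt
    push Not at hlt
    have h3 : ((U \ A).card : ℝ) = U.card - A.card := by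
      rw [Finset.card_sdiff_of_subset hA, Nat.cast_sub (Finset.card_le_card hA)]
    rw [h3] at hlt
    have hA4 : 4 / 5 * (U.card : ℝ) ≤ A.card := by linarith
    have hApos : 0 < (A.card : ℝ) := by linarith
    have h4 := hm A hA (Finset.card_pos.1 (by exact_mod_cast hApos))
      (by nlinarith [mul_pos hσ hWc])
    have h5 : (4 / 5 : ℝ) ^ (3 : ℝ) ≤ ((A.card : ℝ) / U.card) ^ (2 + c) := by
      have h6 : (4 / 5 : ℝ) ≤ (A.card : ℝ) / U.card := by
        rw [le_div_iff₀ hUc]
        exact hA4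
      calc (4 / 5 : ℝ) ^ (3 : ℝ) ≤ (4 / 5 : ℝ) ^ (2 + c) :=
            Real.rpow_le_rpow_of_exponent_ge (by norm_num) (by norm_num) (by linarith)
        _ ≤ _ := Real.rpow_le_rpow (by norm_num) h6 hp.le
    have h7 : (4 / 5 : ℝ) ^ (3 : ℝ) = 64 / 125 := by
      rw [show (3 : ℝ) = ((3 : ℕ) : ℝ) by norm_num, Real.rpow_natCast]
      norm_num
    rw [h7] at h5
    have h8 : ee G U * (64 / 125) ≤ ee G U * ((A.card : ℝ) / U.card) ^ (2 + c) :=
      mul_le_mul_of_nonneg_left h5 hE.le
    nlinarith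
  have hS1 := hpart S hSU (by linarith [ee_nonneg (G := G) (U \ S)])
  have hS2 := hpart (U \ S) Finset.sdiff_subset (by linarith [ee_nonneg (G := G) S])
  have hSS : U \ (U \ S) = S := by
    rw [Finset.sdiff_sdiff_eq_self hSU]
  rw [hSS] at hS2
  have hS1p : 0 < ((U \ S).card : ℝ) := by linarith
  have hS2p : 0 < (S.card : ℝ) := by linarith
  have hm1 := hm S hSU (Finset.card_pos.1 (by exact_mod_cast hS2p)) (by nlinarith)
  have hm2 := hm (U \ S) Finset.sdiff_subset (Finset.card_pos.1 (by exact_mod_cast hS1p))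
    (by nlinarith)
  obtain ⟨x, hx⟩ : ∃ x : ℝ, x = (S.card : ℝ) / U.card := ⟨_, rfl⟩
  obtain ⟨y, hy⟩ : ∃ y : ℝ, y = ((U \ S).card : ℝ) / U.card := ⟨_, rfl⟩
  rw [← hx] at hm1
  rw [← hy] at hm2
  have hxy : x + y = 1 := by
    rw [hx, hy, ← add_div, Finset.card_sdiff_of_subset hSU, Nat.cast_sub (Finset.card_le_card hSU)]
    field_simp
    ring
  have hx0 : 0 ≤ x := by rw [hx]; positivity
  have hy0 : 0 ≤ y := by rw [hy]; positivity
  -- convexity
  have hconv : 2 * (1 / 2 : ℝ) ^ (2 + c) ≤ x ^ (2 + c) + y ^ (2 + c) := by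
    have h1 := (convexOn_rpow (p := 2 + c) (by linarith)).2 (Set.mem_Ici.2 hx0) (Set.mem_Ici.2 hy0)
      (by norm_num : (0 : ℝ) ≤ 1 / 2) (by norm_num : (0 : ℝ) ≤ 1 / 2) (by norm_num)
    simp only [smul_eq_mul] at h1
    have h2 : 1 / 2 * x + 1 / 2 * y = 1 / 2 := by linarith
    rw [h2] at h1
    linarith
  have hhalf : (1 - c) / 4 ≤ (1 / 2 : ℝ) ^ (2 + c) := by
    rw [Real.rpow_add (by norm_num)]
    have h1 : (1 / 2 : ℝ) ^ (2 : ℝ) = 1 / 4 := by
      rw [show (2 : ℝ) = ((2 : ℕ) : ℝ) by norm_num, Real.rpow_natCast]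
      norm_num
    have h2 : 1 - c ≤ (1 / 2 : ℝ) ^ c := by
      have h3 : Real.log (1 / 2) = -Real.log 2 := by
        rw [one_div, Real.log_inv]
      rw [Real.rpow_def_of_pos (by norm_num), h3]
      have h4 := Real.add_one_le_exp (-Real.log 2 * c)
      have h5 : Real.log 2 < 1 := by
        have := Real.log_two_lt_d9
        linarith
      nlinarith
    rw [h1]
    linarith
  nlinarith [mul_le_mul_of_nonneg_left hconv hE.le, mul_le_mul_of_nonneg_left hhalf hE.le,
    mul_pos hE hc]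

end Pool.Agent.R50.SR
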